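import Pool.Agent.W888.DX.Tree
import Pool.Agent.H562R2.DPerfect

set_option autoImplicit false
set_option linter.unusedSectionVars false

/-!
Branch-and-cut proofs for `d`-to-1 games are exponential whenever the basic semidefinite relaxation
has a solution with uniform marginals.
-/

namespace Pool.Agent.W888.DX

open Finset Matrix Pool.Agent.H562R2
open Pool.Agent.W888.UG (dot_sigma prod_marg prod_marg' exists_near touch touch_card)

/-- The fractional points which the basic semidefinite relaxation (`BasicSdp`) does not exclude when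
it is used to prove that the value of the game is less than `1 - ε`. The edge `e` joins the vertex
`v e` (labels in `B`) and the vertex `w e` (labels in `A`), its constraint says that the label of
`v e` is `π e` of the label of `w e`. The point `μ` has a coordinate for every vertex and label, it
belongs to the set if its coordinates are the squared lengths of the vectors of a solution with
`∑_e ∑_a ⟨x (w e) a, y (v e) (π e a)⟩ ≥ (1 - ε) |E|`. -/
def Relax {V W E A B : Type} [Fintype E] [Fintype A] [Fintype B] (v : E → V) (w : E → W)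
    (π : E → A → B) (ε : ℝ) : Set ((V × B) ⊕ (W × A) → ℝ) :=
  {μ | ∃ (D : Type) (_ : Fintype D) (x : W → A → D → ℝ) (y : V → B → D → ℝ),
    BasicSdp w v x y ∧
    (∀ i b, μ (Sum.inl (i, b)) = y i b ⬝ᵥ y i b) ∧
    (∀ i a, μ (Sum.inr (i, a)) = x i a ⬝ᵥ x i a) ∧
    (1 - ε) * (Fintype.card E : ℝ) ≤ ∑ e, ∑ a, x (w e) a ⬝ᵥ y (v e) (π e a)}

/-- The point of a labelling `(L, M)`. -/
noncomputable def lab {V W A B : Type} (L : V → B) (M : W → A) : (V × B) ⊕ (W × A) → ℝ := by
  classical exact
    Sum.elim (fun p => if L p.1 = p.2 then 1 else 0) (fun p => if M p.1 = p.2 then 1 else 0)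

section

variable {V W E A B : Type} [Fintype V] [Fintype W] [Fintype E] [Fintype A] [Fintype B]
  [DecidableEq V] [DecidableEq W] [DecidableEq A] [DecidableEq B]

theorem lab_inl (L : V → B) (M : W → A) (i : V) (b : B) :
    lab L M (Sum.inl (i, b)) = if L i = b then 1 else 0 := by
  unfold lab
  simp only [Sum.elim_inl]
  split_ifs <;> rfl

theorem lab_inr (L : V → B) (M : W → A) (i : W) (a : A) :
    lab L M (Sum.inr (i, a)) = if M i = a then 1 else 0 := by
  unfold lab
  simp only [Sum.elim_inr]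
  split_ifs <;> rfl

theorem ite_fst (c : B × A) (b : B) :
    (if c = (b, c.2) then (1 : ℝ) else 0) = if c.1 = b then 1 else 0 := by
  obtain ⟨c1, c2⟩ := c
  by_cases h : c1 = b
  · subst h
    simp
  · simp [h]

theorem ite_snd (c : B × A) (a : A) :
    (if c = (c.1, a) then (1 : ℝ) else 0) = if c.2 = a then 1 else 0 := by
  obtain ⟨c1, c2⟩ := c
  by_cases h : c2 = a
  · subst h
    simp
  · simp [h]

/-- solutions with given marginals and value at least `t` -/
def Sol (v : E → V) (w : E → W) (π : E → A → B) (μ : V → B → ℝ) (ρ : W → A → ℝ) (t : ℝ) : Prop :=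
  ∃ (D : Type) (_ : Fintype D) (z : D → ℝ) (x : W → A → D → ℝ) (y : V → B → D → ℝ),
    (∀ i, Fam z (x i)) ∧ (∀ i, Fam z (y i)) ∧ z ⬝ᵥ z = 1 ∧
    (∀ e a b, 0 ≤ x (w e) a ⬝ᵥ y (v e) b) ∧
    (∀ i b, μ i b = y i b ⬝ᵥ y i b) ∧ (∀ i a, ρ i a = x i a ⬝ᵥ x i a) ∧
    t ≤ ∑ e, ∑ a, x (w e) a ⬝ᵥ y (v e) (π e a)

theorem mem_relax {v : E → V} {w : E → W} {π : E → A → B} {μ : V → B → ℝ} {ρ : W → A → ℝ}
    {ε t : ℝ} (h : Sol v w π μ ρ t) (ht : (1 - ε) * (Fintype.card E : ℝ) ≤ t) :
    (Sum.elim (fun p => μ p.1 p.2) (fun p => ρ p.1 p.2) : (V × B) ⊕ (W × A) → ℝ) ∈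
      Relax v w π ε := by
  obtain ⟨D, i, z, x, y, h1, h2, h3, h4, h5, h6, h7⟩ := h
  exact ⟨D, i, x, y, ⟨z, h3, fun i => (h1 i).sum, fun i => (h2 i).sum, fun i => (h1 i).orth,
    fun i => (h2 i).orth, h4⟩, h5, h6, ht.trans h7⟩

theorem sol_of_mem {v : E → V} {w : E → W} {π : E → A → B} {μ : V → B → ℝ} {ρ : W → A → ℝ}
    {ε : ℝ} (h : (Sum.elim (fun p => μ p.1 p.2) (fun p => ρ p.1 p.2) : (V × B) ⊕ (W × A) → ℝ) ∈
      Relax v w π ε) : Sol v w π μ ρ ((1 - ε) * (Fintype.card E : ℝ)) := by
  obtain ⟨D, i, x, y, ⟨z, h3, hx, hy, hxo, hyo, h4⟩, h5, h6, h7⟩ := h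
  exact ⟨D, i, z, x, y, fun i => ⟨h3, hx i, hxo i⟩, fun i => ⟨h3, hy i, hyo i⟩, h3, h4, h5, h6, h7⟩

theorem sol_mix (v : E → V) (w : E → W) (π : E → A → B) {J : Type} [Fintype J]
    (p : J → ℝ) (hp : ∀ j, 0 ≤ p j) (hp1 : ∑ j, p j = 1) (μ : J → V → B → ℝ) (ρ : J → W → A → ℝ)
    (t : J → ℝ) (h : ∀ j, Sol v w π (μ j) (ρ j) (t j)) :
    Sol v w π (fun i b => ∑ j, p j * μ j i b) (fun i a => ∑ j, p j * ρ j i a)
      (∑ j, p j * t j) := by
  choose D iD z x y hx hy hz hpos hμ hρ hval using h
  have hu : (fun d : Σ j, D j => Real.sqrt (p d.1) * z d.1 d.2) ⬝ᵥ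
      (fun d : Σ j, D j => Real.sqrt (p d.1) * z d.1 d.2) = 1 := by
    rw [dot_sigma p hp]
    simp only [hz, mul_one, hp1]
  refine ⟨Σ j, D j, inferInstance, fun d => Real.sqrt (p d.1) * z d.1 d.2,
    fun i a d => Real.sqrt (p d.1) * x d.1 i a d.2, fun i b d => Real.sqrt (p d.1) * y d.1 i b d.2,
    fun i => ⟨hu, ?_, ?_⟩, fun i => ⟨hu, ?_, ?_⟩, hu, ?_, ?_, ?_, ?_⟩
  · funext d
    rw [Finset.sum_apply, ← Finset.mul_sum, ← Finset.sum_apply, (hx d.1 i).sum]
  · intro a a' haa
    beta_reduce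
    rw [dot_sigma p hp (fun j => x j i a) (fun j => x j i a')]
    exact Finset.sum_eq_zero fun j _ => by rw [(hx j i).orth a a' haa, mul_zero]
  · funext d
    rw [Finset.sum_apply, ← Finset.mul_sum, ← Finset.sum_apply, (hy d.1 i).sum]
  · intro a a' haa
    beta_reduce
    rw [dot_sigma p hp (fun j => y j i a) (fun j => y j i a')]
    exact Finset.sum_eq_zero fun j _ => by rw [(hy j i).orth a a' haa, mul_zero]
  · intro e a b
    beta_reduce
    rw [dot_sigma p hp (fun j => x j (w e) a) (fun j => y j (v e) b)]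
    exact Finset.sum_nonneg fun j _ => mul_nonneg (hp j) (hpos j e a b)
  · intro i b
    beta_reduce
    rw [dot_sigma p hp (fun j => y j i b) (fun j => y j i b)]
    exact Finset.sum_congr rfl fun j _ => by rw [hμ j i b]
  · intro i a
    beta_reduce
    rw [dot_sigma p hp (fun j => x j i a) (fun j => x j i a)]
    exact Finset.sum_congr rfl fun j _ => by rw [hρ j i a]
  · have hd : ∀ e a, (fun d : Σ j, D j => Real.sqrt (p d.1) * x d.1 (w e) a d.2) ⬝ᵥ
        (fun d : Σ j, D j => Real.sqrt (p d.1) * y d.1 (v e) (π e a) d.2) =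
        ∑ j, p j * (x j (w e) a ⬝ᵥ y j (v e) (π e a)) := fun e a =>
      dot_sigma p hp (fun j => x j (w e) a) (fun j => y j (v e) (π e a))
    beta_reduce
    simp only [hd]
    have h7 : ∑ e, ∑ a, ∑ j, p j * (x j (w e) a ⬝ᵥ y j (v e) (π e a)) =
        ∑ j, p j * ∑ e, ∑ a, x j (w e) a ⬝ᵥ y j (v e) (π e a) := by
      simp only [Finset.mul_sum]
      symm
      rw [Finset.sum_comm]
      refine Finset.sum_congr rfl fun e _ => ?_
      rw [Finset.sum_comm]
    rw [h7]
    exact Finset.sum_le_sum fun j _ => mul_le_mul_of_nonneg_left (hval j) (hp j)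

/-- a labelling is a solution -/
theorem sol_lab (v : E → V) (w : E → W) (π : E → A → B) (L : V → B) (M : W → A) :
    Sol v w π (fun i b => if L i = b then 1 else 0) (fun i a => if M i = a then 1 else 0) 0 := by
  have hd : ∀ c d : ℝ, (fun _ : Unit => c) ⬝ᵥ (fun _ : Unit => d) = c * d := by
    intro c d
    simp [dotProduct]
  refine ⟨Unit, inferInstance, fun _ => 1, fun i a _ => if M i = a then 1 else 0,
    fun i b _ => if L i = b then 1 else 0, fun i => ⟨?_, ?_, ?_⟩, fun i => ⟨?_, ?_, ?_⟩,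
    ?_, ?_, ?_, ?_, ?_⟩
  · rw [hd, one_mul]
  · funext d
    rw [Finset.sum_apply]
    simp
  · intro a b hab
    beta_reduce
    rw [hd]
    by_cases h1 : M i = a
    · have h2 : M i ≠ b := fun h => hab (h1.symm.trans h)
      rw [if_neg h2, mul_zero]
    · rw [if_neg h1, zero_mul]
  · rw [hd, one_mul]
  · funext d
    rw [Finset.sum_apply]
    simp
  · intro a b hab
    beta_reduce
    rw [hd]
    by_cases h1 : L i = a
    · have h2 : L i ≠ b := fun h => hab (h1.symm.trans h)
      rw [if_neg h2, mul_zero]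
    · rw [if_neg h1, zero_mul]
  · rw [hd, one_mul]
  · intro e a b
    beta_reduce
    rw [hd]
    split_ifs <;> norm_num
  · intro i b
    beta_reduce
    rw [hd]
    split_ifs <;> norm_num
  · intro i b
    beta_reduce
    rw [hd]
    split_ifs <;> norm_num
  · refine Finset.sum_nonneg fun e _ => Finset.sum_nonneg fun a _ => ?_
    beta_reduce
    rw [hd]
    split_ifs <;> norm_num

/-- fixing the labels in a set of vertices -/
theorem sol_fix (v : E → V) (w : E → W) (π : E → A → B) (t : ℝ)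
    (h : Sol v w π (fun _ _ => 1 / (Fintype.card B : ℝ)) (fun _ _ => 1 / (Fintype.card A : ℝ)) t)
    (Bd : Finset (V ⊕ W)) (L : V → B) (M : W → A) :
    Sol v w π
      (fun i b => if Sum.inl i ∈ Bd then (if L i = b then 1 else 0) else 1 / (Fintype.card B : ℝ))
      (fun i a => if Sum.inr i ∈ Bd then (if M i = a then 1 else 0) else 1 / (Fintype.card A : ℝ))
      (t - (touch v w Bd).card) := by
  classical
  obtain ⟨D, iD, z, x, y, hx, hy, hz, hpos, hμ, hρ, hval⟩ := h
  have hxz : ∀ i a, 0 ≤ x i a ⬝ᵥ z := fun i a => by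
    rw [(hx i).dot_z]
    exact dot_self_nonneg _
  have hzy : ∀ i b, 0 ≤ z ⬝ᵥ y i b := fun i b => by
    rw [dotProduct_comm, (hy i).dot_z]
    exact dot_self_nonneg _
  have hnn : ∀ e a b, 0 ≤ (if Sum.inr (w e) ∈ Bd then (if M (w e) = a then z else 0)
      else x (w e) a) ⬝ᵥ (if Sum.inl (v e) ∈ Bd then (if L (v e) = b then z else 0)
      else y (v e) b) := by
    intro e a b
    split_ifs <;> first
      | (rw [hz]; norm_num)
      | exact hxz _ _
      | exact hzy _ _
      | exact hpos _ _ _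
      | (rw [dotProduct_zero])
      | (rw [zero_dotProduct])
  refine ⟨D, iD, z, fun i a => if Sum.inr i ∈ Bd then (if M i = a then z else 0) else x i a,
    fun i b => if Sum.inl i ∈ Bd then (if L i = b then z else 0) else y i b,
    fun i => ⟨hz, ?_, ?_⟩, fun i => ⟨hz, ?_, ?_⟩, hz, hnn, ?_, ?_, ?_⟩
  · by_cases hu : Sum.inr i ∈ Bd
    · simp [hu]
    · simp only [hu, if_false]
      exact (hx i).sum
  · intro a b hab
    by_cases hu : Sum.inr i ∈ Bd
    · simp only [hu, if_true]
      by_cases h7 : M i = a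
      · have h8 : M i ≠ b := fun h => hab (h7.symm.trans h)
        rw [if_neg h8, dotProduct_zero]
      · rw [if_neg h7, zero_dotProduct]
    · simp only [hu, if_false]
      exact (hx i).orth a b hab
  · by_cases hu : Sum.inl i ∈ Bd
    · simp [hu]
    · simp only [hu, if_false]
      exact (hy i).sum
  · intro a b hab
    by_cases hu : Sum.inl i ∈ Bd
    · simp only [hu, if_true]
      by_cases h7 : L i = a
      · have h8 : L i ≠ b := fun h => hab (h7.symm.trans h)
        rw [if_neg h8, dotProduct_zero]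
      · rw [if_neg h7, zero_dotProduct]
    · simp only [hu, if_false]
      exact (hy i).orth a b hab
  · intro i b
    by_cases hu : Sum.inl i ∈ Bd
    · simp only [hu, if_true]
      split_ifs
      · exact hz.symm
      · rw [dotProduct_zero]
    · simp only [hu, if_false]
      exact hμ i b
  · intro i b
    by_cases hu : Sum.inr i ∈ Bd
    · simp only [hu, if_true]
      split_ifs
      · exact hz.symm
      · rw [dotProduct_zero]
    · simp only [hu, if_false]
      exact hρ i b
  · have h8 : ∀ e, (∑ a, x (w e) a ⬝ᵥ y (v e) (π e a)) -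
        (if e ∈ touch v w Bd then 1 else 0) ≤
        ∑ a, (if Sum.inr (w e) ∈ Bd then (if M (w e) = a then z else 0)
          else x (w e) a) ⬝ᵥ
          (if Sum.inl (v e) ∈ Bd then (if L (v e) = π e a then z else 0)
          else y (v e) (π e a)) := by
      intro e
      by_cases he : e ∈ touch v w Bd
      · rw [if_pos he]
        have h9 := edge_val_le (hx (w e)) (hy (v e)) (fun a b => hpos e a b) (π e)
        have h10 := Finset.sum_nonneg fun a (_ : a ∈ (Finset.univ : Finset A)) => hnn e a (π e a)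
        linarith
      · rw [if_neg he, sub_zero]
        have h9 : ¬ (Sum.inl (v e) ∈ Bd ∨ Sum.inr (w e) ∈ Bd) := fun h =>
          he (Finset.mem_filter.2 ⟨Finset.mem_univ _, h⟩)
        push Not at h9
        simp only [h9.1, h9.2, if_false]
        exact le_refl _
    have h9 := Finset.sum_le_sum fun e (_ : e ∈ (Finset.univ : Finset E)) => h8 e
    rw [Finset.sum_sub_distrib] at h9
    have h10 : ∑ e : E, (if e ∈ touch v w Bd then (1 : ℝ) else 0) = (touch v w Bd).card := by
      rw [Finset.sum_ite_mem, Finset.univ_inter, Finset.sum_const, nsmul_eq_mul, mul_one]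
    rw [h10] at h9
    linarith

/-- Every point with almost uniform marginals outside a small set of vertices belongs to the
relaxation. -/
theorem sol_near [Nonempty A] [Nonempty B] (v : E → V) (w : E → W) (π : E → A → B) (t : ℝ)
    (h : Sol v w π (fun _ _ => 1 / (Fintype.card B : ℝ)) (fun _ _ => 1 / (Fintype.card A : ℝ)) t)
    (Bd : Finset (V ⊕ W)) (μ : V ⊕ W → B × A → ℝ) (hμ : ∀ i c, 0 ≤ μ i c)
    (hs : ∀ i, ∑ c, μ i c = 1) (τ : ℝ) (hτ : 0 < τ) (hτ1 : τ ≤ 1)
    (hnear : ∀ i ∉ Bd, ∀ c, (1 - τ) * (1 / Fintype.card (B × A)) ≤ μ i c) :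
    Sol v w π (fun i b => ∑ a, μ (Sum.inl i) (b, a)) (fun i a => ∑ b, μ (Sum.inr i) (b, a))
      ((1 - τ) * (t - (touch v w Bd).card)) := by
  have hA : (0 : ℝ) < Fintype.card A := by exact_mod_cast Fintype.card_pos
  have hB : (0 : ℝ) < Fintype.card B := by exact_mod_cast Fintype.card_pos
  have hq : (0 : ℝ) < Fintype.card (B × A) := by exact_mod_cast Fintype.card_pos
  have hqq : (Fintype.card (B × A) : ℝ) = Fintype.card B * Fintype.card A := by
    rw [Fintype.card_prod]
    push_cast
    rfl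
  obtain ⟨ν, hν⟩ : ∃ ν : V ⊕ W → B × A → ℝ, ν = fun i c =>
      if i ∈ Bd then μ i c else (μ i c - (1 - τ) * (1 / Fintype.card (B × A))) / τ := ⟨_, rfl⟩
  have hν0 : ∀ i c, 0 ≤ ν i c := by
    intro i c
    rw [hν]
    beta_reduce
    split_ifs with hw
    · exact hμ i c
    · exact div_nonneg (by linarith [hnear i hw c]) hτ.le
  have hν1 : ∀ i, ∑ c, ν i c = 1 := by
    intro i
    rw [hν]
    beta_reduce
    by_cases hw : i ∈ Bd
    · simp only [hw, if_true]
      exact hs i
    · simp only [hw, if_false]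
      rw [← Finset.sum_div, Finset.sum_sub_distrib, hs, Finset.sum_const, Finset.card_univ,
        nsmul_eq_mul]
      field_simp
      ring
  obtain ⟨p, hp⟩ : ∃ p : (V ⊕ W → B × A) → ℝ, p = fun o => ∏ i, ν i (o i) := ⟨_, rfl⟩
  have hp0 : ∀ o, 0 ≤ p o := by
    intro o
    rw [hp]
    exact Finset.prod_nonneg fun i _ => hν0 i (o i)
  have hp1 : ∑ o, p o = 1 := by
    rw [hp]
    exact prod_marg ν hν1
  have hpm : ∀ i c, ∑ o, p o * (if o i = c then 1 else 0) = ν i c := by
    intro i c
    rw [hp]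
    exact prod_marg' ν hν1 i c
  have hpm1 : ∀ i b, ∑ o, p o * (if (o i).1 = b then 1 else 0) = ∑ a, ν i (b, a) := by
    intro i b
    simp only [← hpm]
    rw [Finset.sum_comm]
    refine Finset.sum_congr rfl fun o _ => ?_
    rw [← Finset.mul_sum]
    congr 1
    rw [Finset.sum_eq_single (o i).2]
    · exact (ite_fst _ _).symm
    · intro a _ ha
      exact if_neg fun h2 => ha (congrArg Prod.snd h2).symm
    · intro h1
      exact absurd (Finset.mem_univ _) h1
  have hpm2 : ∀ i a, ∑ o, p o * (if (o i).2 = a then 1 else 0) = ∑ b, ν i (b, a) := by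
    intro i a
    simp only [← hpm]
    rw [Finset.sum_comm]
    refine Finset.sum_congr rfl fun o _ => ?_
    rw [← Finset.mul_sum]
    congr 1
    rw [Finset.sum_eq_single (o i).1]
    · exact (ite_snd _ _).symm
    · intro b _ hb
      exact if_neg fun h2 => hb (congrArg Prod.fst h2).symm
    · intro h1
      exact absurd (Finset.mem_univ _) h1
  have m1 := sol_mix v w π p hp0 hp1 _ _ _ (fun o => sol_fix v w π t h Bd
    (fun i => (o (Sum.inl i)).1) (fun i => (o (Sum.inr i)).2))
  have m2 := sol_mix v w π p hp0 hp1 _ _ _ (fun o => sol_lab v w π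
    (fun i => (o (Sum.inl i)).1) (fun i => (o (Sum.inr i)).2))
  rw [← Finset.sum_mul, hp1, one_mul] at m1
  rw [← Finset.sum_mul, hp1, one_mul] at m2
  have m3 := sol_mix v w π (J := Bool) (fun b => if b then 1 - τ else τ)
    (by intro b; cases b <;> simp <;> linarith) (by simp)
    (fun c => if c then (fun i b => ∑ o, p o * (if Sum.inl i ∈ Bd then
        (if (o (Sum.inl i)).1 = b then 1 else 0) else 1 / (Fintype.card B : ℝ)))
      else (fun i b => ∑ o, p o * (if (o (Sum.inl i)).1 = b then 1 else 0)))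
    (fun c => if c then (fun i a => ∑ o, p o * (if Sum.inr i ∈ Bd then
        (if (o (Sum.inr i)).2 = a then 1 else 0) else 1 / (Fintype.card A : ℝ)))
      else (fun i a => ∑ o, p o * (if (o (Sum.inr i)).2 = a then 1 else 0)))
    (fun c => if c then t - (touch v w Bd).card else 0)
    (by intro c; cases c
        · simpa using m2
        · simpa using m1)
  have e1 : (fun i b => ∑ c : Bool, (if c then 1 - τ else τ) *
      ((if c then (fun i b => ∑ o, p o * (if Sum.inl i ∈ Bd then
        (if (o (Sum.inl i)).1 = b then 1 else 0) else 1 / (Fintype.card B : ℝ)))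
      else (fun i b => ∑ o, p o * (if (o (Sum.inl i)).1 = b then 1 else 0)) :
        V → B → ℝ) i b)) = fun i b => ∑ a, μ (Sum.inl i) (b, a) := by
    funext i b
    rw [Fintype.sum_bool]
    simp only [if_true, Bool.false_eq_true, if_false]
    rw [hpm1]
    by_cases hw : Sum.inl i ∈ Bd
    · simp only [hw, if_true]
      rw [hpm1, hν]
      simp only [hw, if_true]
      ring
    · simp only [hw, if_false]
      rw [← Finset.sum_mul, hp1, hν]
      simp only [hw, if_false]
      rw [← Finset.sum_div, Finset.sum_sub_distrib, Finset.sum_const, Finset.card_univ,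
        nsmul_eq_mul, hqq]
      field_simp
      ring
  have e2 : (fun i a => ∑ c : Bool, (if c then 1 - τ else τ) *
      ((if c then (fun i a => ∑ o, p o * (if Sum.inr i ∈ Bd then
        (if (o (Sum.inr i)).2 = a then 1 else 0) else 1 / (Fintype.card A : ℝ)))
      else (fun i a => ∑ o, p o * (if (o (Sum.inr i)).2 = a then 1 else 0)) :
        W → A → ℝ) i a)) = fun i a => ∑ b, μ (Sum.inr i) (b, a) := by
    funext i a
    rw [Fintype.sum_bool]
    simp only [if_true, Bool.false_eq_true, if_false]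
    rw [hpm2]
    by_cases hw : Sum.inr i ∈ Bd
    · simp only [hw, if_true]
      rw [hpm2, hν]
      simp only [hw, if_true]
      ring
    · simp only [hw, if_false]
      rw [← Finset.sum_mul, hp1, hν]
      simp only [hw, if_false]
      rw [← Finset.sum_div, Finset.sum_sub_distrib, Finset.sum_const, Finset.card_univ,
        nsmul_eq_mul, hqq]
      field_simp
      ring
  have e3 : ∑ c : Bool, (if c then 1 - τ else τ) *
      (if c then t - (touch v w Bd).card else 0 : ℝ) = (1 - τ) * (t - (touch v w Bd).card) := by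
    rw [Fintype.sum_bool]
    simp
  rw [e1, e2, e3] at m3
  exact m3

/-- The general law, for covers by convex sets. -/
theorem law_cover [Nonempty A] [Nonempty B] (v : E → V) (w : E → W) (π : E → A → B) (Δ : ℕ)
    (hΔ : 0 < Δ) (hs : ∀ u, (Finset.univ.filter fun e => v e = u).card ≤ Δ)
    (ht : ∀ u, (Finset.univ.filter fun e => w e = u).card ≤ Δ) (ε η : ℝ) (hε : 0 ≤ ε)
    (hη : 0 < η) (hη1 : η ≤ 1)
    (h : (Sum.elim (fun _ => 1 / (Fintype.card B : ℝ)) (fun _ => 1 / (Fintype.card A : ℝ)) :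
      (V × B) ⊕ (W × A) → ℝ) ∈ Relax v w π ε)
    (F : List (Set ((V × B) ⊕ (W × A) → ℝ))) (hconv : ∀ C ∈ F, Convex ℝ C)
    (hmiss : ∀ C ∈ F, ∀ μ ∈ C, μ ∉ Relax v w π (ε + η))
    (hcov : ∀ (L : V → B) (M : W → A), ∃ C ∈ F, lab L M ∈ C) :
    Real.exp (η ^ 3 * Fintype.card E / (32 * (Fintype.card A * Fintype.card B) * Δ)) ≤
      F.length := by
  have hA : (0 : ℝ) < Fintype.card A := by exact_mod_cast Fintype.card_pos
  have hB : (0 : ℝ) < Fintype.card B := by exact_mod_cast Fintype.card_pos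
  have hqq : (Fintype.card (B × A) : ℝ) = Fintype.card A * Fintype.card B := by
    rw [Fintype.card_prod]
    push_cast
    ring
  have hq : (0 : ℝ) < Fintype.card (B × A) := by exact_mod_cast Fintype.card_pos
  have hΔ0 : (0 : ℝ) < Δ := by exact_mod_cast hΔ
  rw [← hqq]
  obtain ⟨Φ, hΦ⟩ : ∃ Φ : (V ⊕ W → B × A → ℝ) → ((V × B) ⊕ (W × A) → ℝ), Φ = fun μ =>
      Sum.elim (fun p => ∑ a, μ (Sum.inl p.1) (p.2, a)) (fun p => ∑ b, μ (Sum.inr p.1) (b, p.2)) :=
    ⟨_, rfl⟩
  have hlin : IsLinearMap ℝ Φ := by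
    rw [hΦ]
    constructor
    · intro f g
      funext p
      rcases p with p | p
      · simp only [Sum.elim_inl, Pi.add_apply, Finset.sum_add_distrib]
      · simp only [Sum.elim_inr, Pi.add_apply, Finset.sum_add_distrib]
    · intro c f
      funext p
      rcases p with p | p
      · simp only [Sum.elim_inl, Pi.smul_apply, smul_eq_mul, Finset.mul_sum]
      · simp only [Sum.elim_inr, Pi.smul_apply, smul_eq_mul, Finset.mul_sum]
  have hΦl : ∀ l : V ⊕ W → B × A, Φ (UG.lab l) =
      lab (fun i => (l (Sum.inl i)).1) (fun i => (l (Sum.inr i)).2) := by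
    intro l
    rw [hΦ]
    funext p
    rcases p with ⟨i, b⟩ | ⟨i, a⟩
    · rw [lab_inl]
      simp only [Sum.elim_inl, UG.lab_apply]
      rw [Finset.sum_eq_single (l (Sum.inl i)).2]
      · exact ite_fst _ _
      · intro a _ ha
        exact if_neg fun h2 => ha (congrArg Prod.snd h2).symm
      · intro h1
        exact absurd (Finset.mem_univ _) h1
    · rw [lab_inr]
      simp only [Sum.elim_inr, UG.lab_apply]
      rw [Finset.sum_eq_single (l (Sum.inr i)).1]
      · exact ite_snd _ _
      · intro b _ hb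
        exact if_neg fun h2 => hb (congrArg Prod.fst h2).symm
      · intro h1
        exact absurd (Finset.mem_univ _) h1
  obtain ⟨C', hC', μ, hμC, Bd, hBd, hμ0, hμ1, hnear⟩ := exists_near
    (F.map fun C => Φ ⁻¹' C) (by
      intro C' hC'
      obtain ⟨C, hC, rfl⟩ := List.mem_map.1 hC'
      exact (hconv C hC).is_linear_preimage hlin)
    (by
      intro l
      obtain ⟨C, hC, hl⟩ := hcov (fun i => (l (Sum.inl i)).1) (fun i => (l (Sum.inr i)).2)
      refine ⟨Φ ⁻¹' C, List.mem_map.2 ⟨C, hC, rfl⟩, ?_⟩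
      rw [Set.mem_preimage, hΦl]
      exact hl) (η / 2) (by positivity) (by linarith)
  obtain ⟨C, hC, rfl⟩ := List.mem_map.1 hC'
  rw [List.length_map] at hBd
  have hFpos : (0 : ℝ) < F.length := by
    have : 0 < F.length := List.length_pos_of_mem hC
    exact_mod_cast this
  by_contra hcon
  push Not at hcon
  have hlog : Real.log F.length <
      η ^ 3 * Fintype.card E / (32 * Fintype.card (B × A) * Δ) := by
    rw [← Real.log_exp (η ^ 3 * Fintype.card E / (32 * Fintype.card (B × A) * Δ))]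
    exact Real.log_lt_log hFpos hcon
  have h' : Sol v w π (fun _ _ => 1 / (Fintype.card B : ℝ)) (fun _ _ => 1 / (Fintype.card A : ℝ))
      ((1 - ε) * (Fintype.card E : ℝ)) := sol_of_mem h
  have h1 := sol_near v w π _ h' Bd μ hμ0 hμ1 (η / 2) (by positivity) (by linarith) hnear
  have hmem : Φ μ ∈ Relax v w π (ε + η) := by
    rw [hΦ]
    refine mem_relax h1 ?_
    have h2 : ((touch v w Bd).card : ℝ) ≤ η / 2 * Fintype.card E := by
      have h3 : ((touch v w Bd).card : ℝ) ≤ Bd.card * Δ := by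
        exact_mod_cast touch_card v w Δ hs ht Bd
      have h4 : (Bd.card : ℝ) * ((η / 2) ^ 2 / (4 * Fintype.card (B × A))) <
          η ^ 3 * Fintype.card E / (32 * Fintype.card (B × A) * Δ) := lt_of_le_of_lt hBd hlog
      have h5 : (Bd.card : ℝ) * Δ < η / 2 * Fintype.card E := by
        have h6 : (0 : ℝ) < (η / 2) ^ 2 / (4 * Fintype.card (B × A)) := by positivity
        have h7 : η ^ 3 * Fintype.card E / (32 * Fintype.card (B × A) * Δ) =
            (η / 2 * Fintype.card E / Δ) * ((η / 2) ^ 2 / (4 * Fintype.card (B × A))) := by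
          field_simp
          ring
        rw [h7] at h4
        have h8 := lt_of_mul_lt_mul_right h4 h6.le
        rwa [lt_div_iff₀ hΔ0] at h8
      linarith
    have hE : (0 : ℝ) ≤ Fintype.card E := Nat.cast_nonneg _
    have h3 : (1 - ε - η / 2) * (Fintype.card E : ℝ) ≤
        (1 - ε) * (Fintype.card E : ℝ) - (touch v w Bd).card := by linarith
    have h4 : (1 - (ε + η)) * (Fintype.card E : ℝ) ≤
        (1 - η / 2) * ((1 - ε - η / 2) * (Fintype.card E : ℝ)) := by
      have h5 : (1 - η / 2) * ((1 - ε - η / 2) * (Fintype.card E : ℝ)) -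
          (1 - (ε + η)) * (Fintype.card E : ℝ) =
          (η / 2 * (ε + η / 2)) * (Fintype.card E : ℝ) := by ring
      have h6 : 0 ≤ (η / 2 * (ε + η / 2)) * (Fintype.card E : ℝ) := by positivity
      linarith
    exact h4.trans (mul_le_mul_of_nonneg_left h3 (by linarith))
  exact hmiss C hC (Φ μ) hμC hmem

theorem cover_labels (R : Set ((V × B) ⊕ (W × A) → ℝ)) (T : Tree ((V × B) ⊕ (W × A)))
    (hT : T.Proves R Set.univ) :
    ∃ F : List (Set ((V × B) ⊕ (W × A) → ℝ)), F.length = T.leaves ∧ (∀ S ∈ F, Convex ℝ S) ∧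
      (∀ S ∈ F, ∀ μ ∈ S, μ ∉ R) ∧ ∀ (L : V → B) (M : W → A), ∃ S ∈ F, lab L M ∈ S := by
  obtain ⟨F, h1, h2, h3, h4⟩ := cover_of_tree R T Set.univ convex_univ hT
  refine ⟨F, h1, h2, h3, fun L M => ?_⟩
  obtain ⟨S, hS, hm⟩ := h4 (Sum.elim (fun p => if L p.1 = p.2 then 1 else 0)
    (fun p => if M p.1 = p.2 then 1 else 0)) (Set.mem_univ _)
  refine ⟨S, hS, ?_⟩
  have h5 : lab L M = fun i => (((Sum.elim (fun p => if L p.1 = p.2 then 1 else 0)
    (fun p => if M p.1 = p.2 then 1 else 0) : (V × B) ⊕ (W × A) → ℤ) i : ℤ) : ℝ) := by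
    funext i
    rcases i with ⟨i, b⟩ | ⟨i, a⟩
    · rw [lab_inl]
      simp
    · rw [lab_inr]
      simp
  rw [h5]
  exact hm

end

end Pool.Agent.W888.DX
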