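import Pool.Agent.W888.DX.Law
import Pool.Agent.H562R2.DHyperGame

set_option autoImplicit false
set_option linter.unusedSectionVars false

/-!
Copies of the `2 ^ j`-to-1 games of perfect semidefinite value; existence of branch-and-cut proofs.
-/

namespace Pool.Agent.W888.DX

open Finset Matrix Pool.Agent.H562R2

section exist

variable {V W E A B : Type} [Fintype V] [Fintype W] [Fintype E] [Fintype A] [Fintype B]
  [DecidableEq V] [DecidableEq W] [DecidableEq A] [DecidableEq B]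

theorem fam_int {D K : Type} [Fintype D] [Fintype K] [DecidableEq K] {z : D → ℝ} {x : K → D → ℝ}
    (h : Fam z x) (h01 : ∀ a, x a ⬝ᵥ x a ≤ 0 ∨ 1 ≤ x a ⬝ᵥ x a) :
    ∃ a0, x a0 = z ∧ ∀ a, a ≠ a0 → x a = 0 := by
  obtain ⟨a0, h0⟩ : ∃ a, 1 ≤ x a ⬝ᵥ x a := by
    by_contra hcon
    push Not at hcon
    have h7 : ∑ a, x a ⬝ᵥ x a = 0 := by
      refine Finset.sum_eq_zero fun a _ => ?_
      rcases h01 a with h | h
      · exact le_antisymm h (dot_self_nonneg _)
      · exact absurd h (not_le.2 (hcon a))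
    rw [h.sum_norm] at h7
    norm_num at h7
  have hzero : ∀ a, a ≠ a0 → x a = 0 := by
    intro a ha
    apply dotProduct_self_eq_zero.1
    have h7 : x a ⬝ᵥ x a + x a0 ⬝ᵥ x a0 ≤ 1 := by
      rw [← h.sum_norm, ← Finset.sum_pair (f := fun a => x a ⬝ᵥ x a) ha]
      exact Finset.sum_le_sum_of_subset_of_nonneg (Finset.subset_univ _) fun b _ _ =>
        dot_self_nonneg _
    have h8 : 0 ≤ x a ⬝ᵥ x a := dot_self_nonneg _
    linarith
  refine ⟨a0, ?_, hzero⟩
  rw [← h.sum, Finset.sum_eq_single a0]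
  · intro a _ ha
    exact hzero a ha
  · intro h
    exact absurd (Finset.mem_univ _) h

/-- If every labelling satisfies less than `(1 - ε) |E|` edges then some branch-and-cut tree proves
it. -/
theorem exists_proof (v : E → V) (w : E → W) (π : E → A → B) (ε : ℝ)
    (hval : ∀ (M : W → A) (L : V → B), ((Finset.univ.filter fun e =>
      π e (M (w e)) = L (v e)).card : ℝ) < (1 - ε) * Fintype.card E) :
    ∃ T : Tree ((V × B) ⊕ (W × A)), T.Proves (Relax v w π ε) Set.univ := by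
  classical
  refine ⟨full (Finset.univ : Finset ((V × B) ⊕ (W × A))).toList, full_proves _ _ _ ?_⟩
  rintro μ - h01 ⟨D, iD, x, y, ⟨z, h3, hx, hy, hxo, hyo, h4⟩, h5, h6, h7⟩
  have h01' : ∀ p, μ p ≤ 0 ∨ 1 ≤ μ p := fun p => h01 p (by simp)
  have hxf : ∀ i, ∃ a0, x i a0 = z ∧ ∀ a, a ≠ a0 → x i a = 0 := fun i =>
    fam_int ⟨h3, hx i, hxo i⟩ fun a => by
      rw [← h6]
      exact h01' _
  have hyf : ∀ i, ∃ a0, y i a0 = z ∧ ∀ a, a ≠ a0 → y i a = 0 := fun i =>
    fam_int ⟨h3, hy i, hyo i⟩ fun a => by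
      rw [← h5]
      exact h01' _
  choose M hM hM' using hxf
  choose L hL hL' using hyf
  have hedge : ∀ e, ∑ a, x (w e) a ⬝ᵥ y (v e) (π e a) =
      if π e (M (w e)) = L (v e) then 1 else 0 := by
    intro e
    rw [Finset.sum_eq_single (M (w e))]
    · rw [hM]
      split_ifs with h
      · rw [h, hL, h3]
      · rw [hL' _ _ h, dotProduct_zero]
    · intro a _ ha
      rw [hM' _ _ ha, zero_dotProduct]
    · intro h
      exact absurd (Finset.mem_univ _) h
  simp only [hedge] at h7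
  rw [Finset.sum_boole] at h7
  exact absurd h7 (not_le.2 (hval M L))

end exist

section norms

variable {j m : ℕ}

theorem xv_self {k : ℕ} (f : Fn k) (a : Gam k) : xv f a ⬝ᵥ xv f a = 1 / 2 ^ k := by
  rw [xv_dot]
  have h1 : ∀ S, sg (f S + f 0 + (f S + f 0) + chi (a + a) S) = 1 := by
    intro S
    rw [bool_add_self, pi_add_self, chi_zero]
    rfl
  simp only [h1]
  rw [Finset.sum_const, Finset.card_univ, nsmul_eq_mul, Fintype.card_fun, Fintype.card_bool,
    Fintype.card_fin]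
  push_cast
  have : (0 : ℝ) < 2 ^ k := by positivity
  field_simp

theorem dyv_self (v : Mx j m × Fn m) (b : Gam m) : dyv v b ⬝ᵥ dyv v b = 1 / 2 ^ m := by
  obtain ⟨G, g⟩ := v
  have h1 : dyv (G, g) b ⬝ᵥ dyv (G, g) b = ∑ S, (if S = io G (sndb S) then
      (1 / (2 : ℝ) ^ m) ^ 2 else 0) := by
    unfold dotProduct
    refine Finset.sum_congr rfl fun S _ => ?_
    simp only [dyv]
    by_cases hS : S = io G (sndb S)
    · rw [if_pos hS, if_pos hS]
      have e1 := sg_mul_self (g (sndb S) + g 0 + chi b (sndb S))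
      calc 1 / (2 : ℝ) ^ m * sg (g (sndb S) + g 0 + chi b (sndb S)) *
            (1 / (2 : ℝ) ^ m * sg (g (sndb S) + g 0 + chi b (sndb S)))
          = (1 / (2 : ℝ) ^ m) ^ 2 * (sg (g (sndb S) + g 0 + chi b (sndb S)) *
            sg (g (sndb S) + g 0 + chi b (sndb S))) := by ring
        _ = _ := by rw [e1]; ring
    · rw [if_neg hS, if_neg hS, zero_mul]
  rw [h1, sum_sub G (fun _ => (1 / (2 : ℝ) ^ m) ^ 2), Finset.sum_const, Finset.card_univ,
    nsmul_eq_mul, Fintype.card_fun, Fintype.card_bool, Fintype.card_fin]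
  push_cast
  have : (0 : ℝ) < 2 ^ m := by positivity
  field_simp

end norms

/-- The value of the games. -/
theorem small_value (j : ℕ) (hj : 1 ≤ j) (δ : ℝ) (hδ : 0 < δ) :
    ∃ m : ℕ, ∀ (M : Fn (j + m) → Gam (j + m)) (L : Mx j m × Fn m → Gam m),
      ((Finset.univ.filter fun e : DE j m => dp e (M (ds e)) = L (dt e)).card : ℝ) ≤
        δ * Fintype.card (DE j m) := by
  have h2j : (0 : ℝ) < 2 ^ j := by positivity
  obtain ⟨η, hη⟩ : ∃ η : ℝ, η = δ ^ 2 / 2 ^ j / 2 := ⟨_, rfl⟩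
  have hη0 : 0 < η := by rw [hη]; positivity
  obtain ⟨J, hJ⟩ : ∃ J : ℕ, 1 / ((J : ℝ) + 1) < η := exists_nat_one_div_lt hη0
  obtain ⟨m, hm⟩ : ∃ m : ℕ, 3 ^ J * Real.sqrt (1 / 2 ^ (j + m)) ≤ η := by
    obtain ⟨m, hm⟩ := exists_pow_lt_of_lt_one
      (show (0 : ℝ) < (η / 3 ^ J) ^ 2 by positivity) (show (1 / 2 : ℝ) < 1 by norm_num)
    refine ⟨m, ?_⟩
    rw [mul_comm, ← le_div_iff₀ (by positivity)]
    apply Real.sqrt_le_iff.mpr
    refine ⟨by positivity, ?_⟩
    rw [← _root_.one_div_pow, pow_add]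
    have h1 : (0 : ℝ) < (1 / 2) ^ m := by positivity
    have h2 : ((1 : ℝ) / 2) ^ j ≤ 1 := pow_le_one₀ (by norm_num) (by norm_num)
    nlinarith
  refine ⟨m, fun M L => (dvalue hj M L J (2 ^ j / δ) (by positivity)).trans ?_⟩
  apply mul_le_mul_of_nonneg_right _ (Nat.cast_nonneg _)
  have h1 : 3 ^ J * Real.sqrt (1 / 2 ^ (j + m)) + 1 / ((J : ℝ) + 1) ≤ δ ^ 2 / 2 ^ j := by
    rw [hη] at hJ hm
    linarith
  calc 2 ^ j / δ / 2 * (3 ^ J * Real.sqrt (1 / 2 ^ (j + m)) + 1 / ((J : ℝ) + 1)) +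
        2 ^ j / (2 * (2 ^ j / δ))
      ≤ 2 ^ j / δ / 2 * (δ ^ 2 / 2 ^ j) + 2 ^ j / (2 * (2 ^ j / δ)) := by
        have : (0 : ℝ) ≤ 2 ^ j / δ / 2 := by positivity
        have := mul_le_mul_of_nonneg_left h1 this
        linarith
    _ = δ := by
        field_simp
        ring

/-- Copies of a game. -/
theorem copy_count {E K : Type} [Fintype E] [Fintype K] (P : E × K → Prop) [DecidablePred P]
    (δ : ℝ) (h : ∀ k, ((Finset.univ.filter fun e => P (e, k)).card : ℝ) ≤ δ * Fintype.card E) :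
    ((Finset.univ.filter P).card : ℝ) ≤ δ * Fintype.card (E × K) := by
  classical
  have h1 : ((Finset.univ.filter P).card : ℝ) =
      ∑ k, ((Finset.univ.filter fun e => P (e, k)).card : ℝ) := by
    simp only [Finset.card_filter]
    push_cast
    rw [Fintype.sum_prod_type, Finset.sum_comm]
  rw [h1]
  refine (Finset.sum_le_sum fun k _ => h k).trans (le_of_eq ?_)
  rw [Finset.sum_const, Finset.card_univ, nsmul_eq_mul, Fintype.card_prod]
  push_cast
  ring

theorem copy_deg {E V K : Type} [Fintype E] [Fintype K] [DecidableEq V] [DecidableEq K]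
    (f : E → V) (u : V × K) :
    (Finset.univ.filter fun e : E × K => (f e.1, e.2) = u).card ≤ Fintype.card E := by
  rw [← Finset.card_univ (α := E)]
  refine Finset.card_le_card_of_injOn (fun e => e.1) (fun _ _ => Finset.mem_univ _) ?_
  intro e he e' he' heq
  rw [Finset.mem_coe, Finset.mem_filter] at he he'
  have h1 : e.2 = u.2 := congrArg Prod.snd he.2
  have h2 : e'.2 = u.2 := congrArg Prod.snd he'.2
  exact Prod.ext heq (h1.trans h2.symm)

theorem main (j : ℕ) (hj : 1 ≤ j) (δ : ℝ) (hδ : 0 < δ) :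
    ∃ (m n Δ : ℕ) (γ : ℝ), 0 < n ∧ 0 < γ ∧ ∀ c : ℕ, 1 ≤ c →
      ∃ (V W E A B : Type) (_ : Fintype V) (_ : Fintype W) (_ : Fintype E) (_ : Nonempty E)
        (_ : Fintype A) (_ : Fintype B) (_ : DecidableEq V) (_ : DecidableEq W)
        (_ : DecidableEq B) (v : E → V) (w : E → W) (π : E → A → B),
        Fintype.card B = 2 ^ m ∧ Fintype.card A = 2 ^ j * 2 ^ m ∧
        Fintype.card V + Fintype.card W = c * n ∧
        (∀ u, (univ.filter fun e => v e = u).card ≤ Δ) ∧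
        (∀ u, (univ.filter fun e => w e = u).card ≤ Δ) ∧
        (∀ e b, (univ.filter fun a => π e a = b).card = 2 ^ j) ∧
        (∀ (M : W → A) (L : V → B), ((univ.filter fun e =>
          π e (M (w e)) = L (v e)).card : ℝ) ≤ δ * Fintype.card E) ∧
        (Sum.elim (fun _ => 1 / (Fintype.card B : ℝ)) (fun _ => 1 / (Fintype.card A : ℝ)) :
          (V × B) ⊕ (W × A) → ℝ) ∈ Relax v w π 0 ∧
        ∀ η : ℝ, 0 < η → η ≤ 1 →
          (∀ F : List (Set ((V × B) ⊕ (W × A) → ℝ)), (∀ C ∈ F, Convex ℝ C) →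
            (∀ C ∈ F, ∀ μ ∈ C, μ ∉ Relax v w π η) →
            (∀ (L : V → B) (M : W → A), ∃ C ∈ F, lab L M ∈ C) →
            Real.exp (γ * η ^ 3 * (c * n)) ≤ F.length) ∧
          (∀ T : Tree ((V × B) ⊕ (W × A)), T.Proves (Relax v w π η) Set.univ →
            Real.exp (γ * η ^ 3 * (c * n)) ≤ T.leaves) ∧
          (∀ l, SplitProof (Relax v w π η) l Set.univ →
            Real.exp (γ * η ^ 3 * (c * n)) ≤ 2 * l.length + 1) ∧
          (δ < 1 - η → ∃ T : Tree ((V × B) ⊕ (W × A)),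
            T.Proves (Relax v w π η) Set.univ) := by
  obtain ⟨m, hm⟩ := small_value j hj δ hδ
  obtain ⟨E0, hE0⟩ : ∃ E0 : ℕ, E0 = Fintype.card (DE j m) := ⟨_, rfl⟩
  have hE0pos : 0 < E0 := by rw [hE0]; exact Fintype.card_pos
  have hE0r : (0 : ℝ) < E0 := by exact_mod_cast hE0pos
  obtain ⟨n, hn⟩ : ∃ n : ℕ, n = Fintype.card (Mx j m × Fn m) + Fintype.card (Fn (j + m)) :=
    ⟨_, rfl⟩
  have hn0 : 0 < n := by
    rw [hn]
    have : 0 < Fintype.card (Fn (j + m)) := Fintype.card_pos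
    omega
  have hnr : (0 : ℝ) < n := by exact_mod_cast hn0
  have hB : Fintype.card (Gam m) = 2 ^ m := by
    rw [Fintype.card_fun, Fintype.card_bool, Fintype.card_fin]
  have hA : Fintype.card (Gam (j + m)) = 2 ^ j * 2 ^ m := by
    rw [Fintype.card_fun, Fintype.card_bool, Fintype.card_fin, pow_add]
  have hBr : (Fintype.card (Gam m) : ℝ) = 2 ^ m := by rw [hB]; push_cast; rfl
  have hAr : (Fintype.card (Gam (j + m)) : ℝ) = 2 ^ (j + m) := by
    rw [hA, pow_add]; push_cast; rfl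
  have hB0 : (0 : ℝ) < Fintype.card (Gam m) := by rw [hBr]; positivity
  have hA0 : (0 : ℝ) < Fintype.card (Gam (j + m)) := by rw [hAr]; positivity
  obtain ⟨γ, hγ⟩ : ∃ γ : ℝ, γ = 1 / (32 * (Fintype.card (Gam (j + m)) *
      Fintype.card (Gam m)) * n) := ⟨_, rfl⟩
  have hγ0 : 0 < γ := by rw [hγ]; positivity
  have hfx : ∀ f : Fn (j + m), Fam (fun S => if S = 0 then (1 : ℝ) else 0) (xv f) := fun f =>
    ⟨zfun_unit, xv_sum f, xv_orth f⟩
  refine ⟨m, n, E0, γ, hn0, hγ0, fun c hc => ?_⟩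
  have hcr : (0 : ℝ) < c := by exact_mod_cast hc
  have : Nonempty (Fin c) := ⟨⟨0, hc⟩⟩
  obtain ⟨v, hv⟩ : ∃ v : DE j m × Fin c → (Mx j m × Fn m) × Fin c, v = fun e => (dt e.1, e.2) :=
    ⟨_, rfl⟩
  obtain ⟨w, hw⟩ : ∃ w : DE j m × Fin c → Fn (j + m) × Fin c, w = fun e => (ds e.1, e.2) :=
    ⟨_, rfl⟩
  obtain ⟨π, hπ⟩ : ∃ π : DE j m × Fin c → Gam (j + m) → Gam m, π = fun e => dp e.1 := ⟨_, rfl⟩
  have hdv : ∀ u, (univ.filter fun e => v e = u).card ≤ E0 := by
    intro u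
    rw [hv, hE0]
    exact copy_deg dt u
  have hdw : ∀ u, (univ.filter fun e => w e = u).card ≤ E0 := by
    intro u
    rw [hw, hE0]
    exact copy_deg ds u
  have hcard : Fintype.card (DE j m × Fin c) = E0 * c := by
    rw [Fintype.card_prod, Fintype.card_fin, hE0]
  have hcardr : (Fintype.card (DE j m × Fin c) : ℝ) = E0 * c := by
    rw [hcard]
    push_cast
    rfl
  have hval : ∀ (M : Fn (j + m) × Fin c → Gam (j + m)) (L : (Mx j m × Fn m) × Fin c → Gam m),
      ((univ.filter fun e => π e (M (w e)) = L (v e)).card : ℝ) ≤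
        δ * Fintype.card (DE j m × Fin c) := by
    intro M L
    refine copy_count (fun e => π e (M (w e)) = L (v e)) δ fun k => ?_
    rw [hv, hw, hπ]
    exact hm (fun f => M (f, k)) (fun g => L (g, k))
  have hunif : (Sum.elim (fun _ => 1 / (Fintype.card (Gam m) : ℝ))
      (fun _ => 1 / (Fintype.card (Gam (j + m)) : ℝ)) :
      (((Mx j m × Fn m) × Fin c) × Gam m) ⊕ ((Fn (j + m) × Fin c) × Gam (j + m)) → ℝ) ∈
      Relax v w π 0 := by
    refine ⟨Gam (j + m), inferInstance, fun i a => xv i.1 a, fun i b => dyv i.1 b,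
      ⟨fun S => if S = 0 then (1 : ℝ) else 0, zfun_unit, fun i => xv_sum i.1,
        fun i => dyv_sum i.1, fun i => xv_orth i.1, fun i => dyv_orth i.1, ?_⟩, ?_, ?_, ?_⟩
    · intro e a b
      rw [hv, hw]
      beta_reduce
      rw [perf_dot (hfx (ds e.1)) (dp e.1) (dperfect_edge e.1)]
      split_ifs
      · exact dot_self_nonneg _
      · exact le_refl _
    · intro i b
      rw [Sum.elim_inl, dyv_self, hBr]
    · intro i a
      rw [Sum.elim_inr, xv_self, hAr]
    · have h1 : ∀ e : DE j m × Fin c,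
          ∑ a, xv (w e).1 a ⬝ᵥ dyv (v e).1 (π e a) = 1 := by
        intro e
        rw [hv, hw, hπ]
        beta_reduce
        rw [← (hfx (ds e.1)).sum_norm]
        refine Finset.sum_congr rfl fun a _ => ?_
        rw [perf_dot (hfx (ds e.1)) (dp e.1) (dperfect_edge e.1), if_pos rfl]
      simp only [h1]
      simp
  have hcov : ∀ η : ℝ, 0 < η → η ≤ 1 →
      ∀ F : List (Set ((((Mx j m × Fn m) × Fin c) × Gam m) ⊕
        ((Fn (j + m) × Fin c) × Gam (j + m)) → ℝ)), (∀ C ∈ F, Convex ℝ C) →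
        (∀ C ∈ F, ∀ μ ∈ C, μ ∉ Relax v w π η) →
        (∀ L M, ∃ C ∈ F, lab L M ∈ C) →
        Real.exp (γ * η ^ 3 * (c * n)) ≤ F.length := by
    intro η hη hη1 F h1 h2 h3
    have h4 := law_cover v w π E0 hE0pos hdv hdw 0 η le_rfl hη hη1 hunif F h1
      (by rw [zero_add]; exact h2) h3
    refine le_trans (le_of_eq ?_) h4
    congr 1
    rw [hcardr, hγ]
    field_simp
  have htree : ∀ η : ℝ, 0 < η → η ≤ 1 → ∀ T : Tree ((((Mx j m × Fn m) × Fin c) × Gam m) ⊕
        ((Fn (j + m) × Fin c) × Gam (j + m))), T.Proves (Relax v w π η) Set.univ →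
        Real.exp (γ * η ^ 3 * (c * n)) ≤ T.leaves := by
    intro η hη hη1 T hT
    obtain ⟨F, h1, h2, h3, h4⟩ := cover_labels _ T hT
    rw [← h1]
    exact hcov η hη hη1 F h2 h3 h4
  refine ⟨(Mx j m × Fn m) × Fin c, Fn (j + m) × Fin c, DE j m × Fin c, Gam (j + m), Gam m,
    inferInstance, inferInstance, inferInstance, inferInstance, inferInstance, inferInstance,
    inferInstance, inferInstance, inferInstance, v, w, π, hB, hA, ?_, hdv, hdw, ?_, hval, hunif,
    fun η hη hη1 => ⟨hcov η hη hη1, htree η hη hη1, ?_, ?_⟩⟩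
  · rw [hn, Fintype.card_prod (α := Mx j m × Fn m), Fintype.card_prod (α := Fn (j + m)),
      Fintype.card_fin]
    ring
  · intro e b
    rw [hπ]
    exact dp_card e.1 b
  · intro l hl
    obtain ⟨T, hT, hP⟩ := tree_of_split _ l _ hl
    have h1 := htree η hη hη1 T hP
    rw [hT] at h1
    push_cast at h1
    exact h1
  · intro hlt
    refine exists_proof v w π η fun M L => lt_of_le_of_lt (hval M L) ?_
    rw [hcardr]
    exact mul_lt_mul_of_pos_right hlt (by positivity)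

theorem law_tree {V W E A B : Type} [Fintype V] [Fintype W] [Fintype E] [Fintype A] [Fintype B]
    [DecidableEq V] [DecidableEq W] [Nonempty A] [Nonempty B] (v : E → V) (w : E → W)
    (π : E → A → B) (Δ : ℕ) (hΔ : 0 < Δ) (hs : ∀ u, (Finset.univ.filter fun e => v e = u).card ≤ Δ)
    (ht : ∀ u, (Finset.univ.filter fun e => w e = u).card ≤ Δ) (ε η : ℝ) (hε : 0 ≤ ε)
    (hη : 0 < η) (hη1 : η ≤ 1)
    (h : (Sum.elim (fun _ => 1 / (Fintype.card B : ℝ)) (fun _ => 1 / (Fintype.card A : ℝ)) :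
      (V × B) ⊕ (W × A) → ℝ) ∈ Relax v w π ε)
    (T : Tree ((V × B) ⊕ (W × A))) (hT : T.Proves (Relax v w π (ε + η)) Set.univ) :
    Real.exp (η ^ 3 * Fintype.card E / (32 * (Fintype.card A * Fintype.card B) * Δ)) ≤
      T.leaves := by
  classical
  obtain ⟨F, h1, h2, h3, h4⟩ := cover_labels _ T hT
  rw [← h1]
  exact law_cover v w π Δ hΔ hs ht ε η hε hη hη1 h F h2 h3 h4

end Pool.Agent.W888.DX
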