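import Pool.Agent.W888.UG.Law

set_option autoImplicit false
set_option linter.unusedSectionVars false

/-!
Branch-and-cut trees over a finite set of variables.
-/

namespace Pool.Agent.W888.DX

open Finset

/-- Branch-and-cut trees for the variables in `X`. A node branches either on an integer disjunction
`c ≤ b` or `c ≥ b + 1`, with an integral linear form `c` and an integer `b`, or on a real
disjunction `c < b` or `c ≥ b`, with a real linear form `c` and a real number `b`. -/
inductive Tree (X : Type) : Type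
  | leaf : Tree X
  | int (c : X → ℤ) (b : ℤ) (l r : Tree X) : Tree X
  | real (c : X → ℝ) (b : ℝ) (l r : Tree X) : Tree X

/-- The number of leaves. -/
def Tree.leaves {X : Type} : Tree X → ℕ
  | .leaf => 1
  | .int _ _ l r => l.leaves + r.leaves
  | .real _ _ l r => l.leaves + r.leaves

/-- The tree proves that no integral point of `C` belongs to the relaxation `R`: at every leaf, no
point of the relaxation satisfies all the branches above it. -/
def Tree.Proves {X : Type} [Fintype X] (R : Set (X → ℝ)) : Tree X → Set (X → ℝ) → Prop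
  | .leaf, C => ∀ μ ∈ C, μ ∉ R
  | .int c b l r, C =>
      l.Proves R (C ∩ {μ | ∑ i, (c i : ℝ) * μ i ≤ b}) ∧
      r.Proves R (C ∩ {μ | (b : ℝ) + 1 ≤ ∑ i, (c i : ℝ) * μ i})
  | .real c b l r, C =>
      l.Proves R (C ∩ {μ | ∑ i, c i * μ i < b}) ∧
      r.Proves R (C ∩ {μ | b ≤ ∑ i, c i * μ i})

/-- A cutting-plane proof with split cuts, as a list of cuts `(c, b, d, β)`: the cut `d ≥ β` holds
for all points of the relaxation which satisfy all previous cuts (the set `C`) and one side of the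
split `c ≤ b` or `c ≥ b + 1`, with an integral linear form `c` and an integer `b`; no point of the
relaxation satisfies all cuts. The Chvátal-Gomory cuts are the case `d = c`, `β = b + 1`. -/
def SplitProof {X : Type} [Fintype X] (R : Set (X → ℝ)) :
    List (((X → ℤ) × ℤ) × ((X → ℝ) × ℝ)) → Set (X → ℝ) → Prop
  | [], C => ∀ μ ∈ C, μ ∉ R
  | p :: l, C =>
      (∀ μ ∈ C, μ ∈ R → (∑ i, (p.1.1 i : ℝ) * μ i ≤ p.1.2 ∨
        (p.1.2 : ℝ) + 1 ≤ ∑ i, (p.1.1 i : ℝ) * μ i) → p.2.2 ≤ ∑ i, p.2.1 i * μ i) ∧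
      SplitProof R l (C ∩ {μ | p.2.2 ≤ ∑ i, p.2.1 i * μ i})

variable {X : Type} [Fintype X]

/-- A proof with `L` split cuts gives a tree with `2 L + 1` leaves. -/
theorem tree_of_split (R : Set (X → ℝ)) (l : List (((X → ℤ) × ℤ) × ((X → ℝ) × ℝ))) :
    ∀ C : Set (X → ℝ), SplitProof R l C →
      ∃ T : Tree X, T.leaves = 2 * l.length + 1 ∧ T.Proves R C := by
  induction l with
  | nil =>
    intro C h
    exact ⟨Tree.leaf, rfl, h⟩
  | cons p l ih =>
    intro C h
    obtain ⟨T, hT, hP⟩ := ih _ h.2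
    refine ⟨Tree.real p.2.1 p.2.2 (Tree.int p.1.1 p.1.2 Tree.leaf Tree.leaf) T, ?_, ⟨?_, ?_⟩, hP⟩
    · simp only [Tree.leaves, List.length_cons, hT]
      ring
    · rintro μ ⟨⟨hμ, hlt⟩, hc⟩ hR
      rw [Set.mem_ofPred_eq] at hlt hc
      exact absurd (h.1 μ hμ hR (Or.inl hc)) (not_le.2 hlt)
    · rintro μ ⟨⟨hμ, hlt⟩, hc⟩ hR
      rw [Set.mem_ofPred_eq] at hlt hc
      exact absurd (h.1 μ hμ hR (Or.inr hc)) (not_le.2 hlt)

theorem isLinear (c : X → ℝ) : IsLinearMap ℝ fun μ : X → ℝ => ∑ i, c i * μ i := by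
  constructor
  · intro x y
    rw [← Finset.sum_add_distrib]
    refine Finset.sum_congr rfl fun i _ => ?_
    simp only [Pi.add_apply]
    ring
  · intro r x
    rw [smul_eq_mul, Finset.mul_sum]
    refine Finset.sum_congr rfl fun i _ => ?_
    simp only [Pi.smul_apply, smul_eq_mul]
    ring

/-- The leaves of a branch-and-cut proof are convex sets which cover all integral points. -/
theorem cover_of_tree (R : Set (X → ℝ)) (T : Tree X) :
    ∀ C : Set (X → ℝ), Convex ℝ C → T.Proves R C →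
      ∃ F : List (Set (X → ℝ)), F.length = T.leaves ∧ (∀ S ∈ F, Convex ℝ S) ∧
        (∀ S ∈ F, ∀ μ ∈ S, μ ∉ R) ∧
        ∀ p : X → ℤ, (fun i => (p i : ℝ)) ∈ C → ∃ S ∈ F, (fun i => (p i : ℝ)) ∈ S := by
  induction T with
  | leaf =>
    intro C hC h
    exact ⟨[C], rfl, by simpa using hC, by simpa [Tree.Proves] using h, fun l hl => ⟨C, by simp, hl⟩⟩
  | int c b l r ihl ihr =>
    intro C hC h
    obtain ⟨F1, h1, h2, h3, h4⟩ := ihl _ (hC.inter
      (convex_halfSpace_le (isLinear fun i => (c i : ℝ)) (b : ℝ))) h.1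
    obtain ⟨F2, g1, g2, g3, g4⟩ := ihr _ (hC.inter
      (convex_halfSpace_ge (isLinear fun i => (c i : ℝ)) ((b : ℝ) + 1))) h.2
    refine ⟨F1 ++ F2, ?_, ?_, ?_, ?_⟩
    · rw [List.length_append, h1, g1]; rfl
    · intro S hS
      rcases List.mem_append.1 hS with hS | hS
      · exact h2 S hS
      · exact g2 S hS
    · intro S hS
      rcases List.mem_append.1 hS with hS | hS
      · exact h3 S hS
      · exact g3 S hS
    · intro p hp
      have hm : ∑ i, (c i : ℝ) * (p i : ℝ) = ((∑ i, c i * p i : ℤ) : ℝ) := by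
        push_cast
        rfl
      rcases le_or_gt (∑ i, c i * p i) b with hmb | hmb
      · obtain ⟨S, hS, hlS⟩ := h4 p ⟨hp, by
          rw [Set.mem_ofPred_eq, hm]; exact_mod_cast hmb⟩
        exact ⟨S, List.mem_append.2 (Or.inl hS), hlS⟩
      · obtain ⟨S, hS, hlS⟩ := g4 p ⟨hp, by
          rw [Set.mem_ofPred_eq, hm]; exact_mod_cast (Int.add_one_le_iff.2 hmb)⟩
        exact ⟨S, List.mem_append.2 (Or.inr hS), hlS⟩
  | real c b l r ihl ihr =>
    intro C hC h
    obtain ⟨F1, h1, h2, h3, h4⟩ := ihl _ (hC.inter (convex_halfSpace_lt (isLinear c) b)) h.1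
    obtain ⟨F2, g1, g2, g3, g4⟩ := ihr _ (hC.inter (convex_halfSpace_ge (isLinear c) b)) h.2
    refine ⟨F1 ++ F2, ?_, ?_, ?_, ?_⟩
    · rw [List.length_append, h1, g1]; rfl
    · intro S hS
      rcases List.mem_append.1 hS with hS | hS
      · exact h2 S hS
      · exact g2 S hS
    · intro S hS
      rcases List.mem_append.1 hS with hS | hS
      · exact h3 S hS
      · exact g3 S hS
    · intro p hp
      rcases lt_or_ge (∑ i, c i * (p i : ℝ)) b with hmb | hmb
      · obtain ⟨S, hS, hlS⟩ := h4 p ⟨hp, hmb⟩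
        exact ⟨S, List.mem_append.2 (Or.inl hS), hlS⟩
      · obtain ⟨S, hS, hlS⟩ := g4 p ⟨hp, hmb⟩
        exact ⟨S, List.mem_append.2 (Or.inr hS), hlS⟩

/-- the tree which fixes the variables of a list -/
def full [DecidableEq X] : List X → Tree X
  | [] => Tree.leaf
  | p :: l => Tree.int (fun i => if i = p then 1 else 0) 0 (full l) (full l)

theorem single_sum [DecidableEq X] (p : X) (μ : X → ℝ) :
    ∑ i, (((if i = p then 1 else 0 : ℤ)) : ℝ) * μ i = μ p := by
  rw [Finset.sum_eq_single p]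
  · simp
  · intro i _ hi
    simp [hi]
  · intro h
    exact absurd (Finset.mem_univ _) h

theorem full_proves [DecidableEq X] (R : Set (X → ℝ)) (l : List X) : ∀ C : Set (X → ℝ),
    (∀ μ ∈ C, (∀ p ∈ l, μ p ≤ 0 ∨ 1 ≤ μ p) → μ ∉ R) → (full l).Proves R C := by
  induction l with
  | nil =>
    intro C h μ hμ
    exact h μ hμ (by simp)
  | cons p l ih =>
    intro C h
    refine ⟨ih _ ?_, ih _ ?_⟩
    · rintro μ ⟨hμ, hμ'⟩ hl
      refine h μ hμ fun p' hp' => ?_
      rcases List.mem_cons.1 hp' with h1 | h1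
      · rw [h1]
        rw [Set.mem_ofPred_eq, single_sum] at hμ'
        left
        simpa using hμ'
      · exact hl p' h1
    · rintro μ ⟨hμ, hμ'⟩ hl
      refine h μ hμ fun p' hp' => ?_
      rcases List.mem_cons.1 hp' with h1 | h1
      · rw [h1]
        rw [Set.mem_ofPred_eq, single_sum] at hμ'
        right
        simpa using hμ'
      · exact hl p' h1

end Pool.Agent.W888.DX
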